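import Pool.Agent.H33.HH.TD
import Pool.Agent.H86.CV.DV

/-!
# QSB: the sum over the conductors for a fixed ideal (MP_347b49_nt, HalfOfAll)
-/

set_option autoImplicit false

open NumberField Complex Filter Topology MeasureTheory
open scoped ContDiff nonZeroDivisors

namespace Pool.Agent.H39.HH

open Pool.Agent.H33.HH Pool.Agent.H28.RC Pool.Agent.H37.CV

noncomputable section

variable {K : Type} [Field K] [NumberField K]

theorem nm_nonneg (I : Ideal (𝓞 K)) : 0 ≤ nm I := Nat.cast_nonneg _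

theorem nm_one_le {I : Ideal (𝓞 K)} (h : I ≠ ⊥) : 1 ≤ nm I := by
  have h1 : Ideal.absNorm I ≠ 0 := fun h0 => h (Ideal.absNorm_eq_zero_iff.1 h0)
  unfold nm
  exact_mod_cast Nat.one_le_iff_ne_zero.2 h1

theorem nm_mul (I J : Ideal (𝓞 K)) : nm (I * J) = nm I * nm J := by
  unfold nm
  rw [map_mul]
  push_cast
  rfl

theorem nm_fin (x : ℝ) : {I : Ideal (𝓞 K) | nm I ≤ x}.Finite := by
  refine (Ideal.finite_setOfPred_absNorm_le (S := 𝓞 K) ⌊x⌋₊).subset fun I hI => ?_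
  exact Nat.le_floor hI

theorem div_fin {I : Ideal (𝓞 K)} (h : I ≠ ⊥) : {d : Ideal (𝓞 K) | I ≤ d}.Finite := by
  refine (nm_fin (nm I)).subset fun d hd => ?_
  have h1 : Ideal.absNorm d ∣ Ideal.absNorm I := Ideal.absNorm_dvd_absNorm_of_le hd
  have h2 : Ideal.absNorm I ≠ 0 := fun h0 => h (Ideal.absNorm_eq_zero_iff.1 h0)
  have h3 := Nat.le_of_dvd (Nat.pos_of_ne_zero h2) h1
  show nm d ≤ nm I
  unfold nm
  exact_mod_cast h3

/-- the number of the conductors below a divisor -/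
theorem claimA {C0 : ℝ} (hcnt : ∀ (x : ℝ) (X : Finset (Ideal (𝓞 K))), 1 ≤ x →
      (∀ I ∈ X, I ≠ ⊥ ∧ nm I ≤ x) → (X.card : ℝ) ≤ C0 * x) {k d : Ideal (𝓞 K)} (hk : k ≠ ⊥)
    {Q : ℝ} (hQ : 1 ≤ Q) (Y : Finset (Ideal (𝓞 K)))
    (hY : ∀ q ∈ Y, q ≠ ⊥ ∧ nm q ≤ Q ∧ k * q ≤ d) : (Y.card : ℝ) * nm d ≤ C0 * nm k * Q := by
  classical
  have hC0 : 0 ≤ C0 := by
    have := hcnt 1 ∅ le_rfl (by simp)
    simpa using this
  have hk0 := nm_nonneg k
  by_cases hYe : Y = ∅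
  · subst hYe
    simp only [Finset.card_empty, Nat.cast_zero, zero_mul]
    positivity
  obtain ⟨q0, hq0⟩ := Finset.nonempty_iff_ne_empty.2 hYe
  have hd : d ≠ ⊥ := by
    rintro rfl
    have h1 := (hY q0 hq0).2.2
    rw [le_bot_iff] at h1
    rcases mul_eq_zero.1 h1 with h2 | h2
    · exact hk h2
    · exact (hY q0 hq0).1 h2
  have hd1 := nm_one_le hd
  have hex : ∀ q : Ideal (𝓞 K), ∃ c, q ∈ Y → k * q = d * c := by
    intro q
    by_cases hq : q ∈ Y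
    · obtain ⟨c, hc⟩ := Ideal.dvd_iff_le.2 (hY q hq).2.2
      exact ⟨c, fun _ => hc⟩
    · exact ⟨⊥, fun h => absurd h hq⟩
  choose c hc using hex
  have hinj : Set.InjOn c (Y : Set (Ideal (𝓞 K))) := by
    intro q hq q' hq' h
    have h1 := hc q hq
    have h2 := hc q' hq'
    rw [h, ← h2] at h1
    exact mul_left_cancel₀ hk h1
  have hcard : (Y.image c).card = Y.card := Finset.card_image_of_injOn hinj
  have hne : ∀ q ∈ Y, c q ≠ ⊥ := by
    intro q hq h0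
    have h1 := hc q hq
    rw [h0] at h1
    have h2 : k * q = 0 := by rw [h1]; exact mul_zero d
    rcases mul_eq_zero.1 h2 with h3 | h3
    · exact hk h3
    · exact (hY q hq).1 h3
  have hle : ∀ q ∈ Y, nm (c q) ≤ nm k * Q / nm d := by
    intro q hq
    rw [le_div_iff₀ (by linarith)]
    have h1 : nm k * nm q = nm d * nm (c q) := by
      rw [← nm_mul, ← nm_mul, hc q hq]
    have h2 := (hY q hq).2.1
    nlinarith
  have h1 : 1 ≤ nm k * Q / nm d := (nm_one_le (hne q0 hq0)).trans (hle q0 hq0)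
  have h2 := hcnt _ (Y.image c) h1 (by
    intro I hI
    obtain ⟨q, hq, rfl⟩ := Finset.mem_image.1 hI
    exact ⟨hne q hq, hle q hq⟩)
  rw [hcard] at h2
  have h3 : (Y.card : ℝ) * nm d ≤ C0 * (nm k * Q / nm d) * nm d := by
    refine mul_le_mul_of_nonneg_right h2 (by linarith)
  have h4 : C0 * (nm k * Q / nm d) * nm d = C0 * nm k * Q := by
    have : nm d ≠ 0 := by linarith
    field_simp
  linarith

/-- the norm of a principal ideal -/
theorem nm_span {x : 𝓞 K} (hn : ‖em K (x : K)‖ ^ 2 = ((|Algebra.norm ℚ (x : K)| : ℚ) : ℝ)) :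
    nm (Ideal.span {x}) = ‖em K (x : K)‖ ^ 2 := by
  rw [hn]
  unfold nm
  rw [Ideal.absNorm_span_singleton, ← Algebra.coe_norm_int]
  rw [Nat.cast_natAbs]
  push_cast
  rfl

theorem pf_QSB (h1 : T_CHB) (h2 : T_DVB) (h3 : T_NRM) : T_QSB := by
  classical
  intro K _ _ _ P k ε hk hε
  obtain ⟨C1, hC1, hchb⟩ := h1 K
  obtain ⟨C2, hC2, hdvb⟩ := h2 K (ε / 4) (by positivity)
  obtain ⟨-, hwu, hfin, -, hnorm, -, -⟩ := h3 K
  obtain ⟨C0, hcnt⟩ := (Pool.Agent.H86.CV.pf_DV K).2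
  have hC0 : 0 ≤ C0 := by
    have := (hcnt 1 ∅ le_rfl (by simp)).1
    simpa using this
  have hk1 := nm_one_le hk.1
  refine ⟨C1 * (C0 * nm k) * (wu K * (C2 * (4 : ℝ) ^ (ε / 4))), by positivity, ?_⟩
  intro Q hQ n hn0 hn1 hnQ
  have hQ0 : 0 < Q := by linarith
  -- the conductors
  set Sq : Set (Ideal (𝓞 K)) := {q | q ≠ ⊥ ∧ Cp P q ∧ nm q ≤ Q ∧ k * q ≠ ⊤} with hSq
  have hSqf : Sq.Finite := (nm_fin Q).subset fun q hq => hq.2.2.1
  set Qf := hSqf.toFinset with hQf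
  have hmQ : ∀ q, q ∈ Qf ↔ q ∈ Sq := fun q => hSqf.mem_toFinset
  rw [finsum_mem_eq_finite_toFinset_sum _ hSqf]
  -- the divisors
  set D : Set (Ideal (𝓞 K)) := {d | ∃ ν : 𝓞 K, Ideal.span {ν} = n ∧ ν - 1 ∈ d} with hD
  have hkq : ∀ q ∈ Qf, k * q ≠ ⊥ := by
    intro q hq h0
    rcases mul_eq_zero.1 h0 with h3 | h3
    · exact hk.1 h3
    · exact ((hmQ q).1 hq).1 h3
  have hDf : ∀ q ∈ Qf, {d : Ideal (𝓞 K) | k * q ≤ d ∧
      ∃ ν : 𝓞 K, Ideal.span {ν} = n ∧ ν - 1 ∈ d}.Finite := fun q hq =>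
    (div_fin (hkq q hq)).subset fun d hd => hd.1
  -- the union of the sets of divisors
  set U : Finset (Ideal (𝓞 K)) := Qf.attach.biUnion fun q => (hDf q.1 q.2).toFinset with hU
  have hmU : ∀ d, d ∈ U → d ∈ D := by
    intro d hd
    obtain ⟨q, -, hq⟩ := Finset.mem_biUnion.1 hd
    exact ((hDf q.1 q.2).mem_toFinset.1 hq).2
  have step1 : ∀ q ∈ Qf, ‖∑ᶠ χ ∈ Pr K (k * q), χ.ψ n‖ ≤
      C1 * ∑ d ∈ U, if k * q ≤ d then nm d else 0 := by
    intro q hq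
    refine (hchb (k * q) n (hkq q hq) ((hmQ q).1 hq).2.2.2 hn0).trans ?_
    refine mul_le_mul_of_nonneg_left ?_ hC1
    rw [finsum_mem_eq_finite_toFinset_sum _ (hDf q hq), ← Finset.sum_filter]
    refine Finset.sum_le_sum_of_subset_of_nonneg ?_ fun d _ _ => nm_nonneg d
    intro d hd
    have hd' := (hDf q hq).mem_toFinset.1 hd
    rw [Finset.mem_filter]
    refine ⟨Finset.mem_biUnion.2 ⟨⟨q, hq⟩, Finset.mem_attach _ _, hd⟩, hd'.1⟩
  have step2 : ∀ d ∈ U, (∑ q ∈ Qf, if k * q ≤ d then nm d else 0) ≤ C0 * nm k * Q := by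
    intro d _
    rw [← Finset.sum_filter, Finset.sum_const, nsmul_eq_mul]
    refine claimA (fun x X hx hX => (hcnt x X hx hX).1) hk.1 hQ _ ?_
    intro q hq
    rw [Finset.mem_filter] at hq
    have := (hmQ q).1 hq.1
    exact ⟨this.1, this.2.2.1, hq.2⟩
  -- the number of the divisors
  have step3 : (U.card : ℝ) ≤ wu K * (C2 * (4 * Q ^ 4) ^ (ε / 4)) := by
    have hr0 : 0 ≤ C2 * (4 * Q ^ 4) ^ (ε / 4) := by positivity
    by_cases hUe : U = ∅
    · rw [hUe]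
      simp only [Finset.card_empty, Nat.cast_zero]
      positivity
    obtain ⟨d0, hd0⟩ := Finset.nonempty_iff_ne_empty.2 hUe
    obtain ⟨ν0, hν0, -⟩ := hmU d0 hd0
    haveI : Fintype (𝓞 K)ˣ := Fintype.ofFinite _
    have hxne : ∀ u : (𝓞 K)ˣ, (u : 𝓞 K) * ν0 - 1 ≠ 0 := by
      intro u h0
      have h4 : (u : 𝓞 K) * ν0 = 1 := sub_eq_zero.1 h0
      apply hn1
      rw [← hν0, Ideal.span_singleton_eq_top]
      exact IsUnit.of_mul_eq_one_right _ h4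
    have hspne : ∀ u : (𝓞 K)ˣ, Ideal.span {(u : 𝓞 K) * ν0 - 1} ≠ ⊥ := fun u h0 =>
      hxne u (Ideal.span_singleton_eq_bot.1 h0)
    have hspan : ∀ u : (𝓞 K)ˣ, Ideal.span {(u : 𝓞 K) * ν0} = n := by
      intro u
      rw [← hν0, Ideal.span_singleton_eq_span_singleton]
      exact (associated_unit_mul_left _ _ u.isUnit)
    have hbd : ∀ u : (𝓞 K)ˣ, nm (Ideal.span {(u : 𝓞 K) * ν0 - 1}) ≤ 4 * Q ^ 4 := by
      intro u
      rw [nm_span (hnorm _)]
      have e1 : ‖em K (((u : 𝓞 K) * ν0 : 𝓞 K) : K)‖ ^ 2 ≤ Q ^ 4 := by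
        rw [← nm_span (hnorm _), hspan u]
        exact hnQ
      have e2 : ‖em K (((u : 𝓞 K) * ν0 : 𝓞 K) : K)‖ ≤ Q ^ 2 := by
        refine abs_le_of_sq_le_sq' ?_ (by positivity) |>.2
        calc _ ≤ Q ^ 4 := e1
          _ = (Q ^ 2) ^ 2 := by ring
      have e3 : ‖em K (((u : 𝓞 K) * ν0 - 1 : 𝓞 K) : K)‖ ≤ Q ^ 2 + 1 := by
        have : (((u : 𝓞 K) * ν0 - 1 : 𝓞 K) : K) = (((u : 𝓞 K) * ν0 : 𝓞 K) : K) - 1 := by
          simp
        rw [this, map_sub, map_one]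
        refine (norm_sub_le _ _).trans ?_
        rw [norm_one]
        linarith
      have e4 : Q ^ 2 + 1 ≤ 2 * Q ^ 2 := by nlinarith
      calc ‖em K (((u : 𝓞 K) * ν0 - 1 : 𝓞 K) : K)‖ ^ 2 ≤ (2 * Q ^ 2) ^ 2 :=
            pow_le_pow_left₀ (norm_nonneg _) (e3.trans e4) 2
        _ = 4 * Q ^ 4 := by ring
    have hsub : U ⊆ (Finset.univ : Finset (𝓞 K)ˣ).biUnion fun u =>
        (div_fin (hspne u)).toFinset := by
      intro d hd
      obtain ⟨ν, hν, hνd⟩ := hmU d hd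
      have hass : Associated ν0 ν := by
        rw [← Ideal.span_singleton_eq_span_singleton, hν0, hν]
      obtain ⟨u, hu⟩ := hass
      refine Finset.mem_biUnion.2 ⟨u, Finset.mem_univ _, ?_⟩
      rw [Set.Finite.mem_toFinset]
      show Ideal.span {(u : 𝓞 K) * ν0 - 1} ≤ d
      rw [Ideal.span_singleton_le_iff_mem, mul_comm, hu]
      exact hνd
    have hc1 : U.card ≤ ∑ u : (𝓞 K)ˣ, ((div_fin (hspne u)).toFinset).card :=
      (Finset.card_le_card hsub).trans Finset.card_biUnion_le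
    have hc2 : ∀ u : (𝓞 K)ˣ, (((div_fin (hspne u)).toFinset).card : ℝ) ≤
        C2 * (4 * Q ^ 4) ^ (ε / 4) := by
      intro u
      rw [← Set.ncard_eq_toFinset_card _ (div_fin (hspne u))]
      refine (hdvb _ (hspne u)).trans ?_
      refine mul_le_mul_of_nonneg_left ?_ (by linarith)
      exact Real.rpow_le_rpow (nm_nonneg _) (hbd u) (by positivity)
    calc (U.card : ℝ) ≤ ((∑ u : (𝓞 K)ˣ, ((div_fin (hspne u)).toFinset).card : ℕ) : ℝ) := by
          exact_mod_cast hc1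
      _ = ∑ u : (𝓞 K)ˣ, (((div_fin (hspne u)).toFinset).card : ℝ) := by push_cast; rfl
      _ ≤ ∑ u : (𝓞 K)ˣ, C2 * (4 * Q ^ 4) ^ (ε / 4) := Finset.sum_le_sum fun u _ => hc2 u
      _ = wu K * (C2 * (4 * Q ^ 4) ^ (ε / 4)) := by
          rw [Finset.sum_const, nsmul_eq_mul, Finset.card_univ]
          unfold wu
          rw [Nat.card_eq_fintype_card]
  -- the power
  have step4 : (4 * Q ^ 4) ^ (ε / 4) = (4 : ℝ) ^ (ε / 4) * Q ^ ε := by
    rw [Real.mul_rpow (by norm_num) (by positivity)]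
    congr 1
    rw [← Real.rpow_natCast, ← Real.rpow_mul hQ0.le]
    congr 1
    push_cast
    ring
  calc ∑ q ∈ Qf, ‖∑ᶠ χ ∈ Pr K (k * q), χ.ψ n‖
      ≤ ∑ q ∈ Qf, C1 * ∑ d ∈ U, (if k * q ≤ d then nm d else 0) := Finset.sum_le_sum step1
    _ = C1 * ∑ d ∈ U, ∑ q ∈ Qf, (if k * q ≤ d then nm d else 0) := by
        rw [← Finset.mul_sum, Finset.sum_comm]
    _ ≤ C1 * ∑ d ∈ U, C0 * nm k * Q :=
        mul_le_mul_of_nonneg_left (Finset.sum_le_sum step2) hC1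
    _ = C1 * ((U.card : ℝ) * (C0 * nm k * Q)) := by rw [Finset.sum_const, nsmul_eq_mul]
    _ ≤ C1 * (wu K * (C2 * (4 * Q ^ 4) ^ (ε / 4)) * (C0 * nm k * Q)) := by
        refine mul_le_mul_of_nonneg_left ?_ hC1
        exact mul_le_mul_of_nonneg_right step3 (by positivity)
    _ = C1 * (C0 * nm k) * (wu K * (C2 * (4 : ℝ) ^ (ε / 4))) * Q ^ (1 + ε) := by
        rw [step4, Real.rpow_add hQ0, Real.rpow_one]
        ring

end

end Pool.Agent.H39.HH
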